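import Pool.Agent.Work.MP_db9399_bg.Base
import Pool.Agent.Work.MP_db9399_lc.Interface
import Pool.Agent.Work.MP_db9399_lc_helper99.NUM

/-! THEOREM LC, block NRM: near-regular graphs, from all the other blocks. -/

set_option autoImplicit false

namespace Pool.Agent.Work.MP_db9399_lc.helper99

open Finset Classical
open Pool.Agent.Work.MP_db9399_all (nb)
open Pool.Agent.Work.MP_db9399_px (LWalk hit ee)
open Pool.Agent.Work.MP_db9399_dn (NB IsMat Tot)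
open Pool.Agent.Work.MP_db9399_sc (cut Crit Conn Env Fam Rnd Hv)
open Pool.Agent.Work.MP_db9399_bg (den cl LabP Good PN IsPat en enP Sep Near REnv r0 Deep Spr Ok
  Lbl bx c3f c3 rP rs rs_symm rR eP eR Vc qr qe EndSX HPre Ix NDec VCol UW Rg Jk Ub
  mem_cl mem_bx card_Lbl)
open Pool.Agent.Work.MP_db9399_lc

universe u

theorem BL.mono {V : Type u} [Fintype V] {g ε ε' : ℝ} {G : SimpleGraph V} {d : ℕ}
    (h : BL g ε G d) (he : ε ≤ ε') : BL g ε' G d where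
  deg := h.deg
  low v := le_trans (mul_le_mul_of_nonneg_right (by linarith) (Nat.cast_nonneg _)) (h.low v)
  bip := h.bip
  nsc := h.nsc
  big := h.big

section mono
variable {V : Type u} [Fintype V] {l m r K K1 : ℕ}

theorem oneRound_mono {g δ δ' : ℝ} {G : SimpleGraph V} {d : ℕ} {lab : V → Lbl l m r K K1}
    (h : OneRound g δ G d lab) (hd : δ' ≤ δ) : OneRound g δ' G d lab := by
  intro F a hh U J lg Oi hR
  exact h F a hh U J lg Oi (hR.mono (by unfold qr; positivity) hd)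

theorem endCap_mono {g δ δ' : ℝ} {G : SimpleGraph V} {d : ℕ} {lab : V → Lbl l m r K K1}
    (h : EndCap g δ G d lab) (hd : δ' ≤ δ) : EndCap g δ' G d lab := by
  intro F U L C qq lg Oi hR
  exact h F U L C qq lg Oi (hR.mono (by unfold qe; positivity) hd)

theorem uPar_mono {k w w1 : ℕ} {δ δ' : ℝ} {G : SimpleGraph V} {d : ℕ} {UH : Finset V}
    {c0 tu : V → Fin k} {lab : V → Lbl l m r K K1} {e : Ix m w → Fin k}
    {e1 : Fin (K1 + 1) × Fin (K1 + 1) × Fin w1 → Fin k} {c : V → Fin k} {wv : V → Fin k → V}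
    (h : UPar G d δ UH c0 tu lab e e1 c wv) (hd : δ ≤ δ') :
    UPar G d δ' UH c0 tu lab e e1 c wv where
  adj := h.adj
  inj := h.inj
  inj2 := h.inj2
  cel := h.cel
  spl := h.spl
  sat := h.sat
  spr v b hb := (h.spr v b hb).trans (mul_le_mul_of_nonneg_right hd (Nat.cast_nonneg _))

end mono

theorem mem_cl_biUnion {V : Type u} [Fintype V] {T β : Type} [Fintype β] {P : β → Finset T}
    {lab : V → T} {v : V} (b : β) (h : lab v ∈ P b) : v ∈ cl lab (univ.biUnion P) := by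
  rw [mem_cl, Finset.mem_biUnion]
  exact ⟨b, Finset.mem_univ _, h⟩

/-- choice of the colours -/
theorem exists_colours {k : ℕ} {α β : Type} [Fintype α] [Fintype β] (CH : Finset (Fin k))
    (h1 : CH.card ≤ Fintype.card α) (h2 : Fintype.card α + Fintype.card β ≤ k) :
    ∃ (e : α → Fin k) (e1 : β → Fin k), Function.Injective e ∧ Function.Injective e1 ∧
      (∀ x y, e x ≠ e1 y) ∧ ∀ b ∈ CH, b ∈ Set.range e := by
  obtain ⟨A, hA1, -, hA2⟩ := Finset.exists_subsuperset_card_eq (Finset.subset_univ CH) h1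
    (by rw [Finset.card_univ, Fintype.card_fin]; omega)
  obtain ⟨B, hB1, hB2⟩ := Finset.exists_subset_card_eq (s := Aᶜ) (n := Fintype.card β)
    (by rw [Finset.card_compl, Fintype.card_fin]; omega)
  have eA : α ≃ A := Fintype.equivOfCardEq (by rw [Fintype.card_coe, hA2])
  have eB : β ≃ B := Fintype.equivOfCardEq (by rw [Fintype.card_coe, hB2])
  refine ⟨fun x => (eA x : Fin k), fun y => (eB y : Fin k), ?_, ?_, ?_, ?_⟩
  · exact Subtype.val_injective.comp eA.injective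
  · exact Subtype.val_injective.comp eB.injective
  · intro x y hxy
    have h3 := hB1 (eB y).2
    rw [Finset.mem_compl] at h3
    have h4 : ((eA x : Fin k)) = (eB y : Fin k) := hxy
    rw [← h4] at h3
    exact h3 (eA x).2
  · intro b hb
    exact ⟨eA.symm ⟨b, hA1 hb⟩, by simp⟩

theorem stmt_NRM (hLAB : MP_db9399_bg.Stmt_LAB.{u}) (hSXP : Stmt_SXP.{u})
    (hPAT : MP_db9399_bg.Stmt_PAT)
    (hRND1 : Stmt_RND1.{u}) (hCAPE : Stmt_CAPE.{u}) (hNDEC : Stmt_NDEC.{u})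
    (hVCOL : Stmt_VCOL.{u}) (hUPAR : Stmt_UPAR.{u}) (hLEFT : Stmt_LEFT.{u})
    (hP0ALL : Stmt_P0ALL.{u}) (hPEALL : Stmt_PEALL.{u}) (hASM : Stmt_ASM.{u}) :
    Stmt_NRM.{u} := by
  intro g hg hg1
  -- constants
  obtain ⟨κ, hκ, hκ1, hV⟩ := hVCOL g hg hg1
  obtain ⟨l1, hR⟩ := hRND1 g hg hg1
  obtain ⟨l2, hC⟩ := hCAPE g hg hg1
  obtain ⟨l3, hl3⟩ := exists_nat_ge (4 / g + 4 / κ)
  obtain ⟨l, hl⟩ : ∃ l : ℕ, l = l1 + l2 + l3 + 20 := ⟨_, rfl⟩
  obtain ⟨δ1, hδ1, hR'⟩ := hR l (by omega)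
  obtain ⟨δ2, hδ2, hC'⟩ := hC l (by omega)
  have hl20 : 20 ≤ l := by omega
  have hlr : 4 / g + 4 / κ ≤ 2 * (l : ℝ) + 1 := by
    have : (l3 : ℝ) ≤ l := by exact_mod_cast (by omega : l3 ≤ l)
    have h0 : (0 : ℝ) ≤ l := Nat.cast_nonneg _
    linarith
  have hg4 : 0 < 4 / g := by positivity
  have hκ4 : 0 < 4 / κ := by positivity
  obtain ⟨δ, hδ⟩ : ∃ δ : ℝ, δ = min (min δ1 δ2) (1 / 10) := ⟨_, rfl⟩
  have hδ0 : 0 < δ := by
    rw [hδ]; exact lt_min (lt_min hδ1 hδ2) (by norm_num)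
  have hδd1 : δ ≤ δ1 := by rw [hδ]; exact (min_le_left _ _).trans (min_le_left _ _)
  have hδd2 : δ ≤ δ2 := by rw [hδ]; exact (min_le_left _ _).trans (min_le_right _ _)
  have hδt : δ ≤ 1 / 10 := by rw [hδ]; exact min_le_right _ _
  obtain ⟨cE, hcE, hcE1, hS⟩ := hSXP g 2 (2 * l + 1) (2 * l + 1) hg
  obtain ⟨K0, hK0⟩ := hPEALL g δ cE l hg hg1 hδ0 hcE (by omega)
  obtain ⟨K1, hK1⟩ : ∃ K1 : ℕ, K1 = K0 + 4 := ⟨_, rfl⟩
  obtain ⟨m0, hm0⟩ := hK0 K1 (by omega)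
  obtain ⟨q, hq⟩ := exists_nat_ge (1000 * (2 * (l : ℝ) + 1) / δ)
  obtain ⟨m, hm⟩ : ∃ m : ℕ, m = m0 + q + 28 * (2 * l + 1) * (K1 + 1) ^ 2 + 2 * (2 * l + 1) + 4 :=
    ⟨_, rfl⟩
  obtain ⟨r, hr⟩ : ∃ r : ℕ, r = q + 2 * l + 1 := ⟨_, rfl⟩
  obtain ⟨K, hK⟩ : ∃ K : ℕ, K = q := ⟨_, rfl⟩
  have hqd : 1000 * (2 * (l : ℝ) + 1) ≤ δ * q := by
    rw [div_le_iff₀ hδ0] at hq
    linarith
  have hqm : 1000 * (2 * (l : ℝ) + 1) ≤ δ * (2 * m + 1) := by
    refine hqd.trans (mul_le_mul_of_nonneg_left ?_ hδ0.le)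
    exact_mod_cast (by omega : q ≤ 2 * m + 1)
  have hqr : 1000 * (2 * (l : ℝ) + 1) ≤ δ * (r + 1) := by
    refine hqd.trans (mul_le_mul_of_nonneg_left ?_ hδ0.le)
    exact_mod_cast (by omega : q ≤ r + 1)
  have hqK : 1000 * (2 * (l : ℝ) + 1) ≤ δ * (K + 1) := by
    refine hqd.trans (mul_le_mul_of_nonneg_left ?_ hδ0.le)
    exact_mod_cast (by omega : q ≤ K + 1)
  obtain ⟨M, hM⟩ : ∃ M : ℕ, M = Fintype.card (Lbl l m r K K1) := ⟨_, rfl⟩
  have hM0 : 0 < M := by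
    rw [hM, card_Lbl]; positivity
  -- small constants
  obtain ⟨s1, c1, x1, n1, hs1, hc1, hx1, H1⟩ := hR' m r K K1 (by omega)
  obtain ⟨s2, c2, x2, n2, hs2, hc2, hx2, H2⟩ := hC' m r K K1 (by omega)
  obtain ⟨s3, c3, x3, n3, hs3, hc3, hx3, H3⟩ := hS M hM0
  obtain ⟨s4, x4, n4, hs4, hx4, H4⟩ := hNDEC g l m r K K1 hg (by omega) (by omega)
  obtain ⟨s5, x5, n5, hs5, hx5, H5⟩ := hV l m r K K1
  obtain ⟨s6, x6, δ3, n6, hs6, hx6, hδ3, H6⟩ := hP0ALL g δ l m r K K1 hg hδ0 hδt (by omega)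
    (by omega) hqm hqr hqK
  obtain ⟨s7, x7, δ4, n7, hs7, hx7, hδ4, H7⟩ := hm0 m r K (by omega)
  obtain ⟨s8, x8, n8, hs8, hx8, H8⟩ := hUPAR l m r K K1 (min δ3 δ4) (lt_min hδ3 hδ4) hl20
    (by omega) (by omega) (by omega)
  obtain ⟨s9, x9, n9, hs9, hx9, H9⟩ := hLEFT l m r K K1 (by omega) (by omega)
  obtain ⟨n10, H10⟩ := numbers (g := g) (κ := κ) (l := l) (m := m) (r := r) (K1 := K1) hg hκ
    (by linarith) (by linarith) (by omega) (by omega) (by omega)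
  obtain ⟨s, hs⟩ : ∃ s : ℝ, s = min (min (min s1 s2) (min s3 s4)) (min (min s5 s6)
    (min (min s7 s8) s9)) := ⟨_, rfl⟩
  obtain ⟨cc, hcc⟩ : ∃ cc : ℝ, cc = min (min c1 c2) c3 := ⟨_, rfl⟩
  obtain ⟨x, hx⟩ : ∃ x : ℝ, x = min (min (min x1 x2) (min x3 x4)) (min (min x5 x6)
    (min (min x7 x8) x9)) := ⟨_, rfl⟩
  have hs0 : 0 < s := by
    rw [hs]
    exact lt_min (lt_min (lt_min hs1 hs2) (lt_min hs3 hs4)) (lt_min (lt_min hs5 hs6)
      (lt_min (lt_min hs7 hs8) hs9))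
  have hcc0 : 0 < cc := by
    rw [hcc]
    exact lt_min (lt_min hc1 hc2) hc3
  have hx0 : 0 < x := by
    rw [hx]
    exact lt_min (lt_min (lt_min hx1 hx2) (lt_min hx3 hx4)) (lt_min (lt_min hx5 hx6)
      (lt_min (lt_min hx7 hx8) hx9))
  have hsle : s ≤ s1 ∧ s ≤ s2 ∧ s ≤ s3 ∧ s ≤ s4 ∧ s ≤ s5 ∧ s ≤ s6 ∧ s ≤ s7 ∧ s ≤ s8 ∧ s ≤ s9 := by
    rw [hs]
    simp only [min_le_iff, le_refl, true_or, or_true, and_true]
  have hcle : cc ≤ c1 ∧ cc ≤ c2 ∧ cc ≤ c3 := by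
    rw [hcc]
    simp only [min_le_iff, le_refl, true_or, or_true, and_true]
  have hxle : x ≤ x1 ∧ x ≤ x2 ∧ x ≤ x3 ∧ x ≤ x4 ∧ x ≤ x5 ∧ x ≤ x6 ∧ x ≤ x7 ∧ x ≤ x8 ∧ x ≤ x9 := by
    rw [hx]
    simp only [min_le_iff, le_refl, true_or, or_true, and_true]
  obtain ⟨a1, a2, a3, a4, a5, a6, a7, a8, a9⟩ := hsle
  obtain ⟨b1, b2, b3⟩ := hcle
  obtain ⟨y1, y2, y3, y4, y5, y6, y7, y8, y9⟩ := hxle
  obtain ⟨n11, H11⟩ := hLAB (Lbl l m r K K1) s cc hs0 hcc0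
  refine ⟨x, n1 + n2 + n3 + n4 + n5 + n6 + n7 + n8 + n9 + n10 + n11, hx0, ?_⟩
  intro V _ G d k UH c0 EH tu CH hd hk hBG hH hCH hUH
  obtain ⟨lab, hlab⟩ := H11 G d (by omega) hBG.deg
  obtain ⟨w, w1, w_1, w_2, w_3, w_4, w_5, w_6, w_7, w_8, w_9⟩ := H10 d (by omega)
  -- colours
  have hcardI : Fintype.card (Ix m w) = (2 * m + 1) * (m * w) := by
    rw [Fintype.card_prod, Fintype.card_prod, ZMod.card, Fintype.card_fin, Fintype.card_fin]
  have hcardE : Fintype.card (Fin (K1 + 1) × Fin (K1 + 1) × Fin w1) =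
      (K1 + 1) * ((K1 + 1) * w1) := by
    rw [Fintype.card_prod, Fintype.card_prod, Fintype.card_fin, Fintype.card_fin]
  have hd0 : (0 : ℝ) ≤ d := Nat.cast_nonneg _
  have hL0 : (0 : ℝ) < 2 * (l : ℝ) + 1 := by positivity
  have hmw_le : (2 * (m : ℝ) + 1) * m * w ≤ d := by
    refine w_3.trans ?_
    have : 0 ≤ 3 / (2 * (2 * (l : ℝ) + 1)) := by positivity
    nlinarith
  obtain ⟨e, e1, he, he1, hee, heC⟩ := exists_colours (α := Ix m w)
    (β := Fin (K1 + 1) × Fin (K1 + 1) × Fin w1) CH (by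
      rw [hcardI]
      have h1 : (CH.card : ℝ) ≤ (2 * (m : ℝ) + 1) * m * w := hCH.trans w_4
      have h2 : (CH.card : ℝ) ≤ (((2 * m + 1) * (m * w) : ℕ) : ℝ) := by
        push_cast
        linarith
      exact_mod_cast h2) (by
      rw [hcardI, hcardE]
      have h1 : (2 * (m : ℝ) + 1) * m * w + ((K1 : ℝ) + 1) ^ 2 * w1 ≤ d := by
        have h3 : 3 / (2 * (2 * (l : ℝ) + 1)) * d = 6 * (d / (4 * (2 * (l : ℝ) + 1))) := by
          field_simp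
          ring
        have h4 : 0 ≤ d / (4 * (2 * (l : ℝ) + 1)) := by positivity
        linarith
      have h2 : (((2 * m + 1) * (m * w) + (K1 + 1) * ((K1 + 1) * w1) : ℕ) : ℝ) ≤ k := by
        have h3 : (d : ℝ) ≤ k := by exact_mod_cast (by omega : d ≤ k)
        push_cast
        linarith
      exact_mod_cast h2)
  obtain ⟨pal, hpal⟩ := exists_pal (m := m) (w := w) (r := r)
  -- the blocks
  have L1 := H1 G d lab (by omega) (BL.mono hBG y1) (hlab.mono a1 b1)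
  have L2 := H2 G d lab (by omega) (BL.mono hBG y2) (hlab.mono a2 b2)
  have L1' : OneRound g δ G d lab := oneRound_mono L1 hδd1
  have L2' : EndCap g δ G d lab := endCap_mono L2 hδd2
  have L3 : EndSX cE G d lab := by
    intro A B hAB
    have h := H3 (eP l m r K K1) (eR l) (1 / (2 * l + 1)) G d lab A B
      ((hPAT l m r K K1 (by omega) (by omega)).2) (by rw [ZMod.card]) hM.symm (by omega)
      (BL.mono hBG y3) (hlab.mono a3 b3) hAB (by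
        intro v _
        refine mem_cl_biUnion (lab v).2.1 ?_
        unfold eP
        rw [mem_bx]
        simp)
    have h2 : qe l d = ((2 : ℕ) : ℝ) * (1 / (2 * (l : ℝ) + 1)) * d := by
      unfold qe
      push_cast
      ring
    rw [h2]
    exact h
  obtain ⟨Nd, L4⟩ := H4 G d w cc UH lab (by omega) (BL.mono hBG y4) (hlab.mono a4 le_rfl) hH.two w_1
  obtain ⟨c, L5⟩ := H5 G d k w cc UH c0 EH tu lab e pal (by omega) (BL.mono hBG y5)
    (hlab.mono a5 le_rfl) hH he (by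
      intro s
      have h1 := mul_le_mul_of_nonneg_left (hpal s) (by positivity : (0 : ℝ) ≤ 2 * m + 1)
      linarith)
  obtain ⟨wv, L6⟩ := H8 G d k w w1 g cc UH c0 EH tu lab e e1 pal c (by omega) (BL.mono hBG y8)
    (hlab.mono a8 le_rfl) hH he he1 hee L5 w_3 w_9 w_8
  obtain ⟨Kk, L7⟩ := H9 G d w w1 g cc UH lab Nd (by omega) (BL.mono hBG y9)
    (hlab.mono a9 le_rfl) L4 w_2 w_6
  obtain ⟨Mx, O, L8⟩ := H6 G d k w w1 cc UH c0 EH tu lab e e1 pal c wv Nd (by omega)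
    (BL.mono hBG y6) (hlab.mono a6 le_rfl) L1' hH he L5 (uPar_mono L6 (min_le_left _ _)) L4 hmw_le
  obtain ⟨M1, O1, L9⟩ := H7 G d k w w1 cc UH c0 EH tu lab e e1 c wv Nd Mx O Kk (by omega)
    (BL.mono hBG y7) (hlab.mono a7 le_rfl) L2' L3 hH he1 (uPar_mono L6 (min_le_right _ _)) L4 L8 L7
    hmw_le w_7
  obtain ⟨t, L10, L11⟩ := hASM g (min δ3 δ4) G d k w w1 UH c0 EH tu lab e e1 pal c wv Nd Mx O Kk
    M1 O1 (by omega) hBG.deg hk hH he he1 hee (fun u hu => heC _ (hUH u hu).1)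
    (fun u hu => heC _ (hUH u hu).2) L5 L6 L4 L8 L7 L9
  exact ⟨c, t, L10, L5.cU, L11⟩

end Pool.Agent.Work.MP_db9399_lc.helper99
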